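import Pool.Agent.Helper53.PF.St

/-!
# Project PF, module REB: the second pair
-/

set_option linter.style.longLine false

namespace PF.Helper70

open Polynomial

section general

variable {S : Type} [CommRing S]

theorem rmul (f g₁ g₂ : S[X]) (m n₁ n₂ : ℕ) (hm : f.natDegree ≤ m) (h₁ : g₁.natDegree ≤ n₁) (h₂ : g₂.natDegree ≤ n₂) :
    resultant f (g₁ * g₂) m (n₁ + n₂) = resultant f g₁ m n₁ * resultant f g₂ m n₂ := by
  obtain ⟨k₁, rfl⟩ := Nat.exists_eq_add_of_le h₁
  obtain ⟨k₂, rfl⟩ := Nat.exists_eq_add_of_le h₂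
  have e : g₁.natDegree + k₁ + (g₂.natDegree + k₂) = (g₁.natDegree + g₂.natDegree) + (k₁ + k₂) := by ring
  rw [e, resultant_add_right_deg _ _ _ _ _ natDegree_mul_le, resultant_mul_right _ _ _ _ hm,
    resultant_add_right_deg _ _ _ _ _ le_rfl, resultant_add_right_deg _ _ _ _ _ le_rfl]
  ring

theorem res_zero_of_common (f g : S[X]) (m n : ℕ) (hf : f.natDegree ≤ m) (hg : g.natDegree ≤ n) (hn : m ≠ 0 ∨ n ≠ 0)
    (t : S) (h1 : f.eval t = 0) (h2 : g.eval t = 0) : resultant f g m n = 0 := by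
  obtain ⟨p, q, _, _, h⟩ := exists_mul_add_mul_eq_C_resultant f g hf hg hn
  have h3 := congrArg (eval t) h
  rw [eval_add, eval_mul, eval_mul, h1, h2, zero_mul, zero_mul, add_zero, eval_C] at h3
  exact h3.symm

end general

section main

variable {k : Type} [Field k]

/-- `x(T) - Z` over `S` -/
noncomputable def Fx {S : Type} [CommRing S] (c : k →+* S) (x : k[X]) (Z : S) : S[X] := x.map c - C Z

theorem Fx_deg {S : Type} [CommRing S] (c : k →+* S) (x : k[X]) (Z : S) (hx : x.natDegree ≤ 8) :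
    (Fx c x Z).natDegree ≤ 8 := by
  unfold Fx
  refine le_trans (natDegree_sub_le _ _) (max_le (le_trans natDegree_map_le hx) ?_)
  rw [natDegree_C]
  exact Nat.zero_le _

theorem Fx_coeff {S : Type} [CommRing S] (c : k →+* S) (x : k[X]) (Z : S) : (Fx c x Z).coeff 8 = c (x.coeff 8) := by
  unfold Fx
  rw [coeff_sub, coeff_map, coeff_C_of_ne_zero (by norm_num), sub_zero]

/-- `x(T)^3 - Z^3` is a multiple of `x(T) - Z` -/
noncomputable def Qx {S : Type} [CommRing S] (c : k →+* S) (x : k[X]) (Z : S) : S[X] :=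
  C (c (-(4 / 3))) * (x.map c ^ 2 + x.map c * C Z + C (Z ^ 2))

theorem Qx_deg {S : Type} [CommRing S] (c : k →+* S) (x : k[X]) (Z : S) (hx : x.natDegree ≤ 8) :
    (Qx c x Z).natDegree ≤ 16 := by
  unfold Qx
  have h1 : (x.map c).natDegree ≤ 8 := le_trans natDegree_map_le hx
  refine le_trans natDegree_mul_le ?_
  rw [natDegree_C, zero_add]
  refine le_trans (natDegree_add_le _ _) (max_le (le_trans (natDegree_add_le _ _) (max_le ?_ ?_)) ?_)
  · exact natDegree_pow_le_of_le 2 h1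
  · refine le_trans natDegree_mul_le ?_
    rw [natDegree_C]
    omega
  · rw [natDegree_C]
    exact Nat.zero_le _

section quad

variable {R : Type} [CommRing R] (c : k →+* R) (Z : R)

/-- the eliminant -/
noncomputable def Ph (x a : k[X]) : R[X] :=
  resultant (Fx ((C : R →+* R[X]).comp c) x (C Z)) (C (X : R[X]) - Polynomial.map ((C : R →+* R[X]).comp c) a) 8 12

theorem Ph_eval (x a : k[X]) {S : Type} [CommRing S] (θ : R →+* S) (U : S) :
    eval₂ θ U (Ph c Z x a) = resultant (Fx (θ.comp c) x (θ Z)) (C U - Polynomial.map (θ.comp c) a) 8 12 := by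
  unfold Ph
  rw [← coe_eval₂RingHom, ← resultant_map_map]
  have h1 : (eval₂RingHom θ U).comp ((C : R →+* R[X]).comp c) = θ.comp c := by
    ext t
    simp
  unfold Fx
  rw [Polynomial.map_sub, Polynomial.map_sub, Polynomial.map_map, Polynomial.map_map, h1, Polynomial.map_C,
    Polynomial.map_C, coe_eval₂RingHom, eval₂_C, eval₂_X]

/-- the quadratic polynomial -/
noncomputable def m2 (cv g : R) : R[X] := X ^ 2 - (C cv * X + C g)

theorem m2_monic [Nontrivial R] (cv g : R) : (m2 cv g).Monic := by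
  unfold m2
  monicity!

theorem m2_deg [Nontrivial R] (cv g : R) : (m2 cv g).natDegree = 2 := by
  unfold m2
  compute_degree!

theorem pq_eval [Nontrivial R] (cv g : R) (x a : k[X]) : ∃ p q : R, ∀ {S : Type} [CommRing S] (θ : R →+* S) (U : S),
    U ^ 2 = θ cv * U + θ g → θ p + θ q * U =
      resultant (Fx (θ.comp c) x (θ Z)) (C U - Polynomial.map (θ.comp c) a) 8 12 := by
  refine ⟨(Ph c Z x a %ₘ m2 cv g).coeff 0, (Ph c Z x a %ₘ m2 cv g).coeff 1, ?_⟩
  intro S _ θ U hU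
  rw [← Ph_eval]
  have h1 := modByMonic_add_div (Ph c Z x a) (m2 cv g)
  have h2 : (Ph c Z x a %ₘ m2 cv g).natDegree < 2 := by
    have h3 := natDegree_modByMonic_lt (Ph c Z x a) (m2_monic cv g) (by
      intro h
      have h4 := m2_deg cv g
      rw [h, natDegree_one] at h4
      omega)
    rw [m2_deg] at h3
    exact h3
  have h3 : Ph c Z x a %ₘ m2 cv g = C ((Ph c Z x a %ₘ m2 cv g).coeff 1) * X + C ((Ph c Z x a %ₘ m2 cv g).coeff 0) :=
    eq_X_add_C_of_natDegree_le_one (by omega)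
  have h4 : eval₂ θ U (m2 cv g) = 0 := by
    unfold m2
    rw [eval₂_sub, eval₂_pow, eval₂_X, eval₂_add, eval₂_mul, eval₂_C, eval₂_X, eval₂_C, hU, sub_self]
  have h5 : eval₂ θ U (Ph c Z x a) = eval₂ θ U (Ph c Z x a %ₘ m2 cv g) := by
    conv_lhs => rw [← h1]
    rw [eval₂_add, eval₂_mul, h4, zero_mul, add_zero]
  rw [h5]
  conv_rhs => rw [h3]
  rw [eval₂_add, eval₂_mul, eval₂_C, eval₂_X, eval₂_C]
  ring

/-- the norm of `p + q U` in an extension -/
theorem norm_id (x a b : k[X]) (hx : x.natDegree ≤ 8) (ha : a.natDegree ≤ 12) (hb : b.natDegree ≤ 9)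
    {S : Type} [CommRing S] (c' : k →+* S) (Z' V cv g U : S) (κ n : k)
    (hcv : cv = c' (2 * κ) * (V - c' (2 * n))) (hg : g = c' (4 / 3) * (c' (n ^ 2) - Z' ^ 3))
    (hU : U ^ 2 = cv * U + g)
    (hrel : a ^ 2 = C (2 * κ) * (b - C (2 * n)) * a + C (4 / 3) * (C (n ^ 2) - x ^ 3)) :
    resultant (Fx c' x Z') (C U - a.map c') 8 12 * resultant (Fx c' x Z') (C (cv - U) - a.map c') 8 12 =
      c' (2 * κ) ^ 8 * c' (x.coeff 8) ^ 3 * (resultant (Fx c' x Z') (b.map c' - C V) 8 9 *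
        resultant (Fx c' x Z') (a.map c') 8 12) := by
  have hF := Fx_deg c' x Z' hx
  have ha' : (a.map c').natDegree ≤ 12 := le_trans natDegree_map_le ha
  have hb' : (b.map c').natDegree ≤ 9 := le_trans natDegree_map_le hb
  have hCa : ∀ u : S, (C u - a.map c').natDegree ≤ 12 := by
    intro u
    refine le_trans (natDegree_sub_le _ _) (max_le ?_ ha')
    rw [natDegree_C]
    exact Nat.zero_le _
  have hbV : (b.map c' - C V).natDegree ≤ 9 := by
    refine le_trans (natDegree_sub_le _ _) (max_le hb' ?_)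
    rw [natDegree_C]
    exact Nat.zero_le _
  rw [← rmul _ _ _ _ _ _ hF (hCa _) (hCa _), ← rmul _ _ _ _ _ _ hF hbV ha']
  have hrel' : (a.map c') ^ 2 = C (c' (2 * κ)) * (b.map c' - C (c' (2 * n))) * a.map c' +
      C (c' (4 / 3)) * (C (c' (n ^ 2)) - (x.map c') ^ 3) := by
    have h := congrArg (Polynomial.map c') hrel
    rw [Polynomial.map_pow, Polynomial.map_add, Polynomial.map_mul, Polynomial.map_mul, Polynomial.map_sub,
      Polynomial.map_mul, Polynomial.map_sub, Polynomial.map_pow, Polynomial.map_C, Polynomial.map_C,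
      Polynomial.map_C, Polynomial.map_C] at h
    exact h
  have hU' : (C U : S[X]) ^ 2 = C cv * C U + C g := by
    rw [← C_pow, hU, C_add, C_mul]
  have hneg : c' (-(4 / 3)) = -c' (4 / 3) := map_neg _ _
  have key : (C U - a.map c') * (C (cv - U) - a.map c') =
      C (c' (2 * κ)) * ((b.map c' - C V) * a.map c') + Fx c' x Z' * Qx c' x Z' := by
    have e1 : (C U - a.map c') * (C (cv - U) - a.map c') =
        (C cv * C U - (C U) ^ 2) - C cv * a.map c' + (a.map c') ^ 2 := by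
      rw [C_sub]
      ring
    rw [e1, hU', hrel']
    unfold Fx Qx
    rw [hneg, hcv, hg]
    simp only [C_mul, C_sub, C_neg, C_pow]
    ring
  rw [key, resultant_add_mul_right _ _ _ _ _ (by have := Qx_deg c' x Z' hx; omega) hF, resultant_C_mul_right]
  have e2 : (12 + 12 : ℕ) = (9 + 12) + 3 := by norm_num
  rw [e2, resultant_add_right_deg _ _ _ _ _ (by
    refine le_trans natDegree_mul_le ?_
    omega), Fx_coeff]
  ring

theorem Fx_map {S : Type} [CommRing S] (θ : R →+* S) (x : k[X]) :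
    (Fx c x Z).map θ = Fx (θ.comp c) x (θ Z) := by
  unfold Fx
  rw [Polynomial.map_sub, Polynomial.map_map, Polynomial.map_C]

theorem A_id (x a a₁ : k[X]) (hx : x.natDegree ≤ 8) (ha : a.natDegree ≤ 12) (ha₁ : a₁.natDegree ≤ 12) (n : k)
    (hrel : a * a₁ = C (4 / 3) * (C (n ^ 2) - x ^ 3)) :
    resultant (Fx c x Z) (a.map c) 8 12 * resultant (Fx c x Z) (a₁.map c) 8 12 =
      c (x.coeff 8) ^ 24 * (c (4 / 3) * (c (n ^ 2) - Z ^ 3)) ^ 8 := by
  have hF := Fx_deg c x Z hx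
  rw [← rmul _ _ _ _ _ _ hF (le_trans natDegree_map_le ha) (le_trans natDegree_map_le ha₁), ← Polynomial.map_mul,
    hrel]
  have hneg : c (-(4 / 3)) = -c (4 / 3) := map_neg _ _
  have key : (C (4 / 3) * (C (n ^ 2) - x ^ 3)).map c =
      C (c (4 / 3) * (c (n ^ 2) - Z ^ 3)) + Fx c x Z * Qx c x Z := by
    rw [Polynomial.map_mul, Polynomial.map_sub, Polynomial.map_pow, Polynomial.map_C, Polynomial.map_C]
    unfold Fx Qx
    rw [hneg]
    simp only [C_mul, C_sub, C_neg, C_pow]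
    ring
  rw [key, resultant_add_mul_right _ _ _ _ _ (by have := Qx_deg c x Z hx; omega) hF, resultant_C_right, Fx_coeff]

end quad

/-- the constants in `k[v][Z]` -/
noncomputable def c2 : k →+* k[X][X] := (C : k[X] →+* k[X][X]).comp (C : k →+* k[X])

/-- the eliminant of `T` from `x(T) = Z`, `b(T) = v` -/
noncomputable def Ct (x b : k[X]) : k[X][X] :=
  resultant (Fx c2 x (X : k[X][X])) (b.map c2 - C (C (X : k[X]))) 8 9

theorem Ct_map {WW : Type} [Field WW] (j : k[X] →+* WW) (x b : k[X]) :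
    (Ct x b).map j = resultant (Fx ((C : WW →+* WW[X]).comp (j.comp (C : k →+* k[X]))) x X)
      ((b.map (j.comp (C : k →+* k[X])) - C (j X)).map C) 8 9 := by
  have hM : (mapRingHom j).comp c2 = (C : WW →+* WW[X]).comp (j.comp (C : k →+* k[X])) := by
    ext t
    simp [c2]
  have h1 : (Ct x b).map j = mapRingHom j (Ct x b) := rfl
  rw [h1]
  unfold Ct
  rw [← resultant_map_map, Fx_map, hM, Polynomial.map_sub, Polynomial.map_sub, Polynomial.map_map, Polynomial.map_map,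
    hM, Polynomial.map_C, Polynomial.map_C, coe_mapRingHom, Polynomial.map_X, Polynomial.map_C]

theorem lin_ne {WW : Type} [Field WW] (t : WW) : (C t - X : WW[X]) ≠ 0 := by
  intro h
  have h1 : (C t - X : WW[X]).coeff 1 = -1 := by simp
  rw [h, coeff_zero] at h1
  norm_num at h1

theorem lin_deg {WW : Type} [Field WW] (t : WW) : (C t - X : WW[X]).natDegree ≤ 1 := by
  compute_degree

theorem prod_ne {WW : Type} [Field WW] (M : Multiset WW) (y : WW[X]) :
    (M.map (fun τ => (C (y.eval τ) - X : WW[X]))).prod ≠ 0 := by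
  rw [Ne, Multiset.prod_eq_zero_iff]
  intro h
  obtain ⟨τ, _, h1⟩ := Multiset.mem_map.1 h
  exact lin_ne _ h1

theorem prod_deg {WW : Type} [Field WW] (M : Multiset WW) (y : WW[X]) :
    (M.map (fun τ => (C (y.eval τ) - X : WW[X]))).prod.natDegree ≤ M.card := by
  refine le_trans (natDegree_multiset_prod_le _) ?_
  rw [Multiset.map_map]
  have h1 : (M.map (natDegree ∘ fun τ => (C (y.eval τ) - X : WW[X]))).sum ≤ (M.map (fun _ => 1)).sum := by
    refine Multiset.sum_map_le_sum_map _ _ ?_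
    intro τ _
    exact lin_deg _
  refine le_trans h1 ?_
  rw [Multiset.map_const', Multiset.sum_replicate]
  simp

theorem Fx_eval {WW : Type} [Field WW] (i₀ : k →+* WW) (x : k[X]) (τ : WW) :
    eval (C τ) (Fx ((C : WW →+* WW[X]).comp i₀) x X) = C ((x.map i₀).eval τ) - X := by
  unfold Fx
  rw [eval_sub, eval_C, ← Polynomial.map_map, eval_map, eval₂_hom]

theorem res_prod {WW : Type} [Field WW] [IsAlgClosed WW] (i₀ : k →+* WW) (x : k[X]) (hx : x.natDegree ≤ 8)
    (G' : WW[X]) (hG : G'.natDegree = 9) :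
    ∃ u : WW, u ≠ 0 ∧ resultant (Fx ((C : WW →+* WW[X]).comp i₀) x X) (G'.map C) 8 9 =
      C u * (G'.roots.map (fun τ => (C ((x.map i₀).eval τ) - X : WW[X]))).prod := by
  have hsp : G'.Splits := IsAlgClosed.splits G'
  have hG0 : G' ≠ 0 := by
    intro h
    rw [h, natDegree_zero] at hG
    omega
  have hdG : (G'.map (C : WW →+* WW[X])).natDegree = 9 := by
    rw [natDegree_map_eq_of_injective C_injective, hG]
  have e3 := resultant_eq_prod_eval (G'.map (C : WW →+* WW[X])) (Fx ((C : WW →+* WW[X]).comp i₀) x X) 8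
    (Fx_deg _ _ _ hx) (hsp.map _)
  rw [hdG, Splits.roots_map_of_injective hsp C_injective, Multiset.map_map] at e3
  have hlc : (G'.map (C : WW →+* WW[X])).leadingCoeff = C G'.leadingCoeff :=
    leadingCoeff_map_of_injective C_injective _
  refine ⟨(-1) ^ (8 * 9) * G'.leadingCoeff ^ 8, ?_, ?_⟩
  · exact mul_ne_zero (pow_ne_zero _ (neg_ne_zero.2 one_ne_zero)) (pow_ne_zero _ (leadingCoeff_ne_zero.2 hG0))
  · rw [resultant_comm, e3, hlc, C_mul, C_pow, C_pow, C_neg, C_1, mul_assoc]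
    congr 3
    exact Multiset.map_congr rfl (fun τ _ => Fx_eval i₀ x τ)

theorem Ct_spec_aux {WW : Type} [Field WW] [IsAlgClosed WW] (j : k[X] →+* WW) (hj : Function.Injective j)
    (x b : k[X]) (hx : x.natDegree ≤ 8) (hb : b.natDegree = 9) :
    Ct x b ≠ 0 ∧ (Ct x b).natDegree ≤ 9 := by
  have e1 := Ct_map j x b
  have hG : (b.map (j.comp (C : k →+* k[X])) - C (j X)).natDegree = 9 := by
    rw [natDegree_sub_C, natDegree_map_eq_of_injective (j.comp (C : k →+* k[X])).injective, hb]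
  obtain ⟨u, hu, e2⟩ := res_prod (j.comp (C : k →+* k[X])) x hx _ hG
  rw [e2] at e1
  have hsp : (b.map (j.comp (C : k →+* k[X])) - C (j X)).Splits := IsAlgClosed.splits _
  have hcard := hsp.natDegree_eq_card_roots
  rw [hG] at hcard
  constructor
  · intro h
    rw [h, Polynomial.map_zero] at e1
    exact mul_ne_zero (C_ne_zero.2 hu) (prod_ne _ _) e1.symm
  · rw [← natDegree_map_eq_of_injective hj, e1, natDegree_C_mul hu, hcard]
    exact prod_deg _ _

theorem Ct_spec (x b : k[X]) (hx : x.natDegree ≤ 8) (hb : b.natDegree = 9) :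
    Ct x b ≠ 0 ∧ (Ct x b).natDegree ≤ 9 :=
  Ct_spec_aux ((algebraMap (FractionRing k[X]) (AlgebraicClosure (FractionRing k[X]))).comp
    (algebraMap k[X] (FractionRing k[X])))
    ((algebraMap (FractionRing k[X]) (AlgebraicClosure (FractionRing k[X]))).injective.comp
      (IsFractionRing.injective k[X] (FractionRing k[X]))) x b hx hb

/-- the other factor -/
noncomputable def At (x a : k[X]) : k[X][X] := resultant (Fx c2 x (X : k[X][X])) (a.map c2) 8 12

theorem coeff8 (x : k[X]) (hx : x.natDegree = 8) : x.coeff 8 ≠ 0 := by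
  rw [← hx]
  exact leadingCoeff_ne_zero.2 (by
    intro h
    rw [h, natDegree_zero] at hx
    omega)

theorem A_spec [CharZero k] {R : Type} [CommRing R] [IsDomain R] (c : k →+* R) (Z : R) (x a a₁ : k[X]) (n : k)
    (hx : x.natDegree = 8) (ha : a.natDegree ≤ 12)
    (ha₁ : a₁.natDegree ≤ 12) (hrel : a * a₁ = C (4 / 3) * (C (n ^ 2) - x ^ 3))
    (hp : Prime (Z ^ 3 - c (n ^ 2))) :
    ∃ (i : ℕ) (v : Rˣ), resultant (Fx c x Z) (a.map c) 8 12 = v * (Z ^ 3 - c (n ^ 2)) ^ i := by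
  have h1 := A_id c Z x a a₁ hx.le ha ha₁ n hrel
  have hu : IsUnit (c (x.coeff 8) ^ 24 * c (4 / 3) ^ 8) := by
    refine IsUnit.mul (IsUnit.pow _ ((IsUnit.mk0 _ (coeff8 x hx)).map c)) (IsUnit.pow _ ((IsUnit.mk0 _ ?_).map c))
    exact div_ne_zero (by norm_num) (by norm_num)
  have h2 : resultant (Fx c x Z) (a.map c) 8 12 * resultant (Fx c x Z) (a₁.map c) 8 12 =
      (c (x.coeff 8) ^ 24 * c (4 / 3) ^ 8) * (Z ^ 3 - c (n ^ 2)) ^ 8 := by
    rw [h1]
    ring
  have hdvd : resultant (Fx c x Z) (a.map c) 8 12 ∣ (Z ^ 3 - c (n ^ 2)) ^ 8 :=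
    (hu.dvd_mul_left).1 ⟨_, h2.symm⟩
  obtain ⟨i, _, hi⟩ := (dvd_prime_pow hp 8).1 hdvd
  obtain ⟨v, hv⟩ := hi.symm
  refine ⟨i, v, ?_⟩
  rw [← hv, mul_comm]

theorem At_spec [CharZero k] (x a a₁ : k[X]) (n : k) (hx : x.natDegree = 8) (ha : a.natDegree ≤ 12)
    (ha₁ : a₁.natDegree ≤ 12) (hrel : a * a₁ = C (4 / 3) * (C (n ^ 2) - x ^ 3))
    (hp : Prime (X ^ 3 - C (C (n ^ 2)) : k[X][X])) :
    ∃ (i : ℕ) (r : k[X]), r ≠ 0 ∧ At x a = C r * (X ^ 3 - C (C (n ^ 2))) ^ i := by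
  obtain ⟨i, v, hv⟩ := A_spec (c2 : k →+* k[X][X]) X x a a₁ n hx ha ha₁ hrel hp
  obtain ⟨r, hr, hr2⟩ := Polynomial.isUnit_iff.1 v.isUnit
  refine ⟨i, r, hr.ne_zero, ?_⟩
  rw [hr2]
  exact hv

theorem theta_cV {S : Type} [CommRing S] (θ : k[X][X] →+* S) (κ n : k) :
    θ (cV κ n) = (θ.comp c2) (2 * κ) * (θ (C X) - (θ.comp c2) (2 * n)) := by
  have e : (cV κ n : k[X][X]) = c2 (2 * κ) * (C X - c2 (2 * n)) := by
    unfold cV c2
    rw [C_mul, C_sub]
    rfl
  rw [e, RingHom.map_mul θ, RingHom.map_sub θ, RingHom.comp_apply, RingHom.comp_apply]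

theorem theta_g2 {S : Type} [CommRing S] (θ : k[X][X] →+* S) (n : k) :
    θ (g2 n) = (θ.comp c2) (4 / 3) * ((θ.comp c2) (n ^ 2) - (θ X) ^ 3) := by
  have e : (g2 n : k[X][X]) = c2 (4 / 3) * (c2 (n ^ 2) - X ^ 3) := rfl
  rw [e, RingHom.map_mul θ, RingHom.map_sub θ, RingHom.map_pow θ, RingHom.comp_apply, RingHom.comp_apply]

theorem theta_Ct {S : Type} [CommRing S] (θ : k[X][X] →+* S) (x b : k[X]) :
    θ (Ct x b) = resultant (Fx (θ.comp c2) x (θ X)) (b.map (θ.comp c2) - C (θ (C X))) 8 9 := by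
  unfold Ct
  rw [← resultant_map_map, Fx_map, Polynomial.map_sub, Polynomial.map_map, Polynomial.map_C]

theorem theta_At {S : Type} [CommRing S] (θ : k[X][X] →+* S) (x a : k[X]) :
    θ (At x a) = resultant (Fx (θ.comp c2) x (θ X)) (a.map (θ.comp c2)) 8 12 := by
  unfold At
  rw [← resultant_map_map, Fx_map, Polynomial.map_map]

theorem exU {WW : Type} [Field WW] [IsAlgClosed WW] (cv g : WW) : ∃ U : WW, U ^ 2 = cv * U + g := by
  obtain ⟨U, hU⟩ := IsAlgClosed.exists_root (m2 cv g) (by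
    intro h
    have h1 := m2_deg cv g
    rw [natDegree_eq_of_degree_eq_some h] at h1
    simp at h1)
  refine ⟨U, ?_⟩
  have h1 : eval U (m2 cv g) = 0 := hU
  unfold m2 at h1
  rw [eval_sub, eval_pow, eval_X, eval_add, eval_mul, eval_C, eval_X, eval_C] at h1
  exact sub_eq_zero.1 h1

/-- the norm identity over `k[v][Z]` -/
theorem N2_id {WW : Type} [Field WW] [IsAlgClosed WW] (θ : k[X][X] →+* WW)
    (hθ : Function.Injective θ) (κ n : k) (x a b : k[X]) (hx : x.natDegree ≤ 8) (ha : a.natDegree ≤ 12)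
    (hb : b.natDegree ≤ 9)
    (hrel : a ^ 2 = C (2 * κ) * (b - C (2 * n)) * a + C (4 / 3) * (C (n ^ 2) - x ^ 3)) (p q : k[X][X])
    (hpq : ∀ U : WW, U ^ 2 = θ (cV κ n) * U + θ (g2 n) → θ p + θ q * U =
      resultant (Fx (θ.comp c2) x (θ X)) (C U - Polynomial.map (θ.comp c2) a) 8 12) :
    N2 κ n p q = c2 ((2 * κ) ^ 8 * (x.coeff 8) ^ 3) * (Ct x b * At x a) := by
  obtain ⟨U, hU2⟩ := exU (θ (cV κ n)) (θ (g2 n))
  have hV2 : (θ (cV κ n) - U) ^ 2 = θ (cV κ n) * (θ (cV κ n) - U) + θ (g2 n) := by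
    linear_combination hU2
  have e1 := hpq U hU2
  have e2 := hpq _ hV2
  have e3 := norm_id x a b hx ha hb (θ.comp c2) (θ X) (θ (C X)) (θ (cV κ n)) (θ (g2 n)) U κ n
    (theta_cV θ κ n) (theta_g2 θ n) hU2 hrel
  rw [← e1, ← e2] at e3
  apply hθ
  have e4 : θ (N2 κ n p q) = (θ p + θ q * U) * (θ p + θ q * (θ (cV κ n) - U)) := by
    unfold N2
    rw [RingHom.map_sub, RingHom.map_add, RingHom.map_mul, RingHom.map_mul, RingHom.map_mul, RingHom.map_pow,
      RingHom.map_pow]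
    linear_combination (θ q) ^ 2 * hU2
  rw [e4, e3, RingHom.map_mul θ, RingHom.map_mul θ (Ct x b), theta_Ct, theta_At, RingHom.map_mul c2,
    RingHom.map_pow c2 (2 * κ), RingHom.map_pow c2 (x.coeff 8), RingHom.map_mul θ (c2 (2 * κ) ^ 8),
    RingHom.map_pow θ (c2 (2 * κ)), RingHom.map_pow θ (c2 (x.coeff 8)), RingHom.comp_apply,
    RingHom.comp_apply]

theorem ev_C (v y c : k[X]) : ev v y (C c) = c.comp v := by
  unfold ev
  rw [coe_eval₂RingHom, eval₂_C, coe_compRingHom]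

theorem ev_X (v y : k[X]) : ev v y X = y := by
  unfold ev
  rw [coe_eval₂RingHom, eval₂_X]

theorem rel_lemma [CharZero k] (κ n : k) (s z w : k[X]) (hκ : 3 * κ ^ 2 + 1 = 0)
    (heq : 3 * s * w ^ 2 + s ^ 3 + 4 * z ^ 3 = C (4 * n)) :
    (s ^ 2 * w + C κ * (s ^ 3 - C (2 * n))) ^ 2 =
      C (2 * κ) * (s ^ 3 - C (2 * n)) * (s ^ 2 * w + C κ * (s ^ 3 - C (2 * n))) +
        C (4 / 3) * (C (n ^ 2) - (s * z) ^ 3) := by
  have hκC : (3 : k[X]) * C κ ^ 2 + 1 = 0 := by
    have h1 := congrArg (C : k → k[X]) hκ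
    rw [C_add, C_mul, C_pow, C_1, C_0, map_ofNat] at h1
    exact h1
  have hthird : (3 : k[X]) * C (1 / 3) = 1 := by
    have h1 : (3 : k) * (1 / 3) = 1 := by
      rw [mul_one_div, div_self]
      norm_num
    have h2 := congrArg (C : k → k[X]) h1
    rw [C_mul, C_1, map_ofNat] at h2
    exact h2
  have h43 : (C (4 / 3) : k[X]) = 4 * C (1 / 3) := by
    have h1 : (4 / 3 : k) = 4 * (1 / 3) := by ring
    rw [h1, C_mul, map_ofNat]
  have h2κ : (C (2 * κ) : k[X]) = 2 * C κ := by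
    rw [C_mul, map_ofNat]
  have h2n : (C (2 * n) : k[X]) = 2 * C n := by
    rw [C_mul, map_ofNat]
  have h4n : (C (4 * n) : k[X]) = 4 * C n := by
    rw [C_mul, map_ofNat]
  rw [h4n] at heq
  rw [h43, h2κ, h2n, C_pow]
  linear_combination (C (1 / 3) * s ^ 3) * heq - (C (1 / 3) * (s ^ 3 - 2 * C n) ^ 2) * hκC
      - (s ^ 4 * w ^ 2 - C κ ^ 2 * (s ^ 3 - 2 * C n) ^ 2) * hthird

theorem ev_c2 (v y : k[X]) : (ev v y).comp c2 = (C : k →+* k[X]) := by
  ext t
  unfold c2
  rw [RingHom.comp_apply, RingHom.comp_apply, ev_C, C_comp]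

theorem ev_cV (κ n : k) (v y : k[X]) : ev v y (cV κ n) = C (2 * κ) * (v - C (2 * n)) := by
  unfold cV
  rw [ev_C, mul_comp, C_comp, sub_comp, X_comp, C_comp]

theorem ev_g2 (n : k) (v y : k[X]) : ev v y (g2 n) = C (4 / 3) * (C (n ^ 2) - y ^ 3) := by
  rw [theta_g2, ev_c2, ev_X]

theorem vanish (x a : k[X]) (hx : x.natDegree ≤ 8) (ha : a.natDegree ≤ 12) :
    resultant (Fx (C : k →+* k[X]) x x) (C a - Polynomial.map (C : k →+* k[X]) a) 8 12 = 0 := by
  refine res_zero_of_common _ _ 8 12 (Fx_deg _ _ _ hx) ?_ (Or.inl (by norm_num)) X ?_ ?_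
  · refine le_trans (natDegree_sub_le _ _) (max_le ?_ (le_trans natDegree_map_le ha))
    rw [natDegree_C]
    exact Nat.zero_le _
  · unfold Fx
    rw [eval_sub, eval_C, eval_map, eval₂_C_X, sub_self]
  · rw [eval_sub, eval_C, eval_map, eval₂_C_X, sub_self]

theorem ins_aux (K : k) (r : k[X]) (P A B : k[X][X]) (i : ℕ) (hA : A = C r * P ^ i) :
    c2 K * (B * A) = C (C K * r) * P ^ i * B := by
  have e : (c2 K : k[X][X]) = C (C K) := rfl
  rw [hA, e, C_mul]
  ring

theorem holds_REB : PF.StREB := by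
  intro k _ _ κ n hκ hprime s z w hcrv
  have hs0 : s ≠ 0 := by
    intro h
    have := hcrv.ds
    rw [h, natDegree_zero] at this
    omega
  have hz0 : z ≠ 0 := by
    intro h
    have := hcrv.dz
    rw [h, natDegree_zero] at this
    omega
  have hdx : (s * z).natDegree = 8 := by
    rw [natDegree_mul hs0 hz0, hcrv.ds, hcrv.dz]
  have hds2 : (s ^ 2).natDegree ≤ 6 := natDegree_pow_le_of_le 2 hcrv.ds.le
  have hdb : (s ^ 3).natDegree = 9 := by
    rw [natDegree_pow, hcrv.ds]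
  have hdc : (s ^ 3 - C (2 * n)).natDegree ≤ 12 := by
    rw [natDegree_sub_C, hdb]
    norm_num
  have hda : (s ^ 2 * w + C κ * (s ^ 3 - C (2 * n))).natDegree ≤ 12 := by
    refine le_trans (natDegree_add_le _ _) (max_le ?_ ?_)
    · exact natDegree_mul_le_of_le hds2 hcrv.dw.le
    · exact le_trans (natDegree_C_mul_le _ _) hdc
  have hrel := rel_lemma κ n s z w hκ hcrv.eq
  generalize s ^ 2 * w + C κ * (s ^ 3 - C (2 * n)) = a at hda hrel ⊢
  have hda₁ : (a - C (2 * κ) * (s ^ 3 - C (2 * n))).natDegree ≤ 12 :=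
    le_trans (natDegree_sub_le _ _) (max_le hda (le_trans (natDegree_C_mul_le _ _) hdc))
  have hrel₁ : a * (a - C (2 * κ) * (s ^ 3 - C (2 * n))) = C (4 / 3) * (C (n ^ 2) - (s * z) ^ 3) := by
    linear_combination hrel
  obtain ⟨p, q, hpq⟩ := pq_eval (c2 : k →+* k[X][X]) X (cV κ n) (g2 n) (s * z) a
  have hC := Ct_spec (s * z) (s ^ 3) hdx.le hdb
  obtain ⟨i, r, hr, hA⟩ := At_spec (s * z) a _ n hdx hda hda₁ hrel₁ hprime
  have hN := N2_id ((algebraMap (FractionRing k[X][X]) (AlgebraicClosure (FractionRing k[X][X]))).comp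
    (algebraMap k[X][X] (FractionRing k[X][X])))
    ((algebraMap (FractionRing k[X][X]) (AlgebraicClosure (FractionRing k[X][X]))).injective.comp
      (IsFractionRing.injective k[X][X] (FractionRing k[X][X]))) κ n (s * z) a (s ^ 3) hdx.le hda hdb.le hrel p q
    (fun U hU => hpq _ U hU)
  have hκ0 : κ ≠ 0 := by
    intro h
    rw [h] at hκ
    norm_num at hκ
  have hK : ((2 * κ) ^ 8 * ((s * z).coeff 8) ^ 3 : k) ≠ 0 :=
    mul_ne_zero (pow_ne_zero _ (mul_ne_zero two_ne_zero hκ0)) (pow_ne_zero _ (coeff8 _ hdx))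
  refine ⟨Ct (s * z) (s ^ 3), p, q, C ((2 * κ) ^ 8 * ((s * z).coeff 8) ^ 3) * r, i,
    mul_ne_zero (C_ne_zero.2 hK) hr, hC.1, hC.2, ?_, ?_⟩
  · rw [hN]
    exact ins_aux _ _ _ _ _ _ hA
  · have hU : a ^ 2 = ev (s ^ 3) (s * z) (cV κ n) * a + ev (s ^ 3) (s * z) (g2 n) := by
      rw [ev_cV, ev_g2]
      exact hrel
    have h1 := hpq (ev (s ^ 3) (s * z)) a hU
    rw [h1, ev_c2, ev_X]
    exact vanish _ _ hdx.le hda

end main

end PF.Helper70
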